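import Pool.Agent.Helper5_OPEN.DefsR
import Pool.Agent.Helper62_TRI.MainOf

/-!
Module RATE, part A: tails of the Brownian loop.
-/

namespace Pool.Agent.H5O.H92

open MeasureTheory Complex Filter Topology ProbabilityTheory
open Pool.Agent.H62T
open scoped ENNReal NNReal

/-- the loop is bounded -/
def Bd (ω : Sp) : Prop := ∃ R : ℝ, ∀ m k, k ≤ 2 ^ m → ‖loop m ω k‖ ≤ R

/-- an upper bound for the norm of the loop -/
noncomputable def MM (ω : Sp) : ℝ := hs ω 1 + hs ω (-1) + hs ω I + hs ω (-I)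

theorem mom' : MomStatement := mom osc_stmt

theorem ae_Bd : ∀ᵐ ω ∂PP, Bd ω := mom'.2.2.1

theorem hs_nn (ω : Sp) (u : ℂ) : 0 ≤ hs ω u := mom'.2.1 u ω

theorem le_hs {ω : Sp} (hω : Bd ω) (u : ℂ) {m k : ℕ} (hk : k ≤ 2 ^ m) :
    ip u (loop m ω k) ≤ hs ω u := by
  obtain ⟨R, hR⟩ := hω
  exact H85.le_hs hR u hk

theorem hs_le_of {ω : Sp} {u : ℂ} {B : ℝ} (hB : 0 ≤ B)
    (h : ∀ m k, k ≤ 2 ^ m → ip u (loop m ω k) ≤ B) : hs ω u ≤ B := by
  unfold hs
  refine Real.iSup_le (fun q => ?_) hB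
  split_ifs with hq
  · exact h _ _ hq
  · exact hB

theorem ip_comb (a b : ℝ) (u v z : ℂ) :
    ip ((a : ℂ) * u + (b : ℂ) * v) z = a * ip u z + b * ip v z := by
  simp [ip]
  ring

theorem hs_comb {ω : Sp} (hω : Bd ω) {a b : ℝ} (ha : 0 ≤ a) (hb : 0 ≤ b) (u v : ℂ) :
    hs ω ((a : ℂ) * u + (b : ℂ) * v) ≤ a * hs ω u + b * hs ω v := by
  refine hs_le_of (add_nonneg (mul_nonneg ha (hs_nn _ _)) (mul_nonneg hb (hs_nn _ _)))
    fun m k hk => ?_
  rw [ip_comb]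
  exact add_le_add (mul_le_mul_of_nonneg_left (le_hs hω u hk) ha)
    (mul_le_mul_of_nonneg_left (le_hs hω v hk) hb)

theorem MM_nn (ω : Sp) : 0 ≤ MM ω := by
  unfold MM
  have h1 := hs_nn ω 1
  have h2 := hs_nn ω (-1)
  have h3 := hs_nn ω I
  have h4 := hs_nn ω (-I)
  linarith

theorem hs_le_MM {ω : Sp} (hω : Bd ω) {u : ℂ} (hu : ‖u‖ ≤ 1) : hs ω u ≤ MM ω := by
  refine hs_le_of (MM_nn ω) fun m k hk => ?_
  set L := loop m ω k with hL
  have h1 : L.re ≤ hs ω 1 := by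
    have := le_hs hω 1 hk
    simpa [ip] using this
  have h2 : -L.re ≤ hs ω (-1) := by
    have := le_hs hω (-1) hk
    simpa [ip] using this
  have h3 : L.im ≤ hs ω I := by
    have := le_hs hω I hk
    simpa [ip] using this
  have h4 : -L.im ≤ hs ω (-I) := by
    have := le_hs hω (-I) hk
    simpa [ip] using this
  have p1 := hs_nn ω 1
  have p2 := hs_nn ω (-1)
  have p3 := hs_nn ω I
  have p4 := hs_nn ω (-I)
  have a1 : |L.re| ≤ hs ω 1 + hs ω (-1) := abs_le.2 ⟨by linarith, by linarith⟩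
  have a2 : |L.im| ≤ hs ω I + hs ω (-I) := abs_le.2 ⟨by linarith, by linarith⟩
  have b1 : |u.re| ≤ 1 := (Complex.abs_re_le_norm u).trans hu
  have b2 : |u.im| ≤ 1 := (Complex.abs_im_le_norm u).trans hu
  have c1 : u.re * L.re ≤ |L.re| := by
    calc u.re * L.re ≤ |u.re * L.re| := le_abs_self _
      _ = |u.re| * |L.re| := abs_mul _ _
      _ ≤ 1 * |L.re| := mul_le_mul_of_nonneg_right b1 (abs_nonneg _)
      _ = |L.re| := one_mul _
  have c2 : u.im * L.im ≤ |L.im| := by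
    calc u.im * L.im ≤ |u.im * L.im| := le_abs_self _
      _ = |u.im| * |L.im| := abs_mul _ _
      _ ≤ 1 * |L.im| := mul_le_mul_of_nonneg_right b2 (abs_nonneg _)
      _ = |L.im| := one_mul _
  unfold ip MM
  linarith

theorem MM_meas : Measurable MM := by
  unfold MM
  exact (((mom'.1 1).add (mom'.1 (-1))).add (mom'.1 I)).add (mom'.1 (-I))

theorem MM_tail : ∃ C c : ℝ, 0 < C ∧ 0 < c ∧ ∀ x : ℝ, 0 < x →
    PP {ω | x < MM ω} ≤ ENNReal.ofReal (C * Real.exp (-(c * x ^ 2))) := by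
  obtain ⟨C, c, hC, hc, h⟩ := H41.bad_le osc_stmt
  refine ⟨C, c / 16, hC, by positivity, fun x hx => ?_⟩
  have h1 := h (x / 4) (by positivity)
  have e : c * (x / 4) ^ 2 = c / 16 * x ^ 2 := by ring
  rw [e] at h1
  refine le_trans (measure_mono ?_) h1
  intro ω hω
  by_contra hb
  have hb' : ∀ m k, k ≤ 2 ^ m → ‖loop m ω k‖ ≤ x / 4 := by
    intro m k hk
    by_contra hh
    exact hb ⟨m, k, hk, (not_le.1 hh).le⟩
  have hx4 : 0 ≤ x / 4 := by positivity
  have q1 := H41.hs_le 1 ω (x / 4) hx4 hb'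
  have q2 := H41.hs_le (-1) ω (x / 4) hx4 hb'
  have q3 := H41.hs_le I ω (x / 4) hx4 hb'
  have q4 := H41.hs_le (-I) ω (x / 4) hx4 hb'
  simp only [norm_one, norm_neg, Complex.norm_I, one_mul] at q1 q2 q3 q4
  have hω' : x < MM ω := hω
  unfold MM at hω'
  linarith

/-- the indicator function of the event that the loop is large -/
noncomputable def jd (x : ℝ) (ω : Sp) : ℝ := ({ω | x < MM ω} : Set Sp).indicator (fun _ => (1 : ℝ)) ω

theorem jd_meas (x : ℝ) : Measurable (jd x) :=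
  measurable_const.indicator (measurableSet_lt measurable_const MM_meas)

theorem jd_nn (x : ℝ) (ω : Sp) : 0 ≤ jd x ω := Set.indicator_nonneg (fun _ _ => zero_le_one) _

theorem jd_le (x : ℝ) (ω : Sp) : jd x ω ≤ 1 := by
  unfold jd
  by_cases h : ω ∈ {ω | x < MM ω}
  · rw [Set.indicator_of_mem h]
  · rw [Set.indicator_of_notMem h]
    exact zero_le_one

theorem jd_one {x : ℝ} {ω : Sp} (h : x < MM ω) : jd x ω = 1 := by
  have h' : ω ∈ ({ω | x < MM ω} : Set Sp) := h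
  unfold jd
  rw [Set.indicator_of_mem h']

theorem jd_int (x : ℝ) : Integrable (jd x) PP :=
  (integrable_const (1 : ℝ)).indicator (measurableSet_lt measurable_const MM_meas)

theorem exp_err : ∃ c : ℝ, 0 < c ∧ ∀ f : Sp → ℝ, H9.AM f → ∃ K : ℝ, 0 ≤ K ∧ ∀ x : ℝ, 0 < x →
    Integrable (fun ω => jd x ω * |f ω|) PP ∧
    ∫ ω, jd x ω * |f ω| ∂PP ≤ K * Real.exp (-(c * x ^ 2)) := by
  obtain ⟨C, c, hC, hc, h⟩ := MM_tail
  refine ⟨c / 2, by positivity, fun f hf => ?_⟩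
  have hf2 : Integrable (fun ω => |f ω| ^ 2) PP := hf.2 2
  have hE : 0 ≤ ∫ ω, |f ω| ^ 2 ∂PP := integral_nonneg fun ω => by positivity
  refine ⟨(∫ ω, |f ω| ^ 2 ∂PP + C) / 2, by positivity, fun x hx => ?_⟩
  have hmeas : AEStronglyMeasurable (fun ω => jd x ω * |f ω|) PP :=
    (jd_meas x).aestronglyMeasurable.mul hf.1.norm
  have hint : Integrable (fun ω => jd x ω * |f ω|) PP := by
    refine Integrable.mono' hf.integrable.norm hmeas (Eventually.of_forall fun ω => ?_)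
    rw [norm_mul, Real.norm_of_nonneg (jd_nn x ω), Real.norm_of_nonneg (abs_nonneg _),
      Real.norm_eq_abs]
    calc jd x ω * |f ω| ≤ 1 * |f ω| := mul_le_mul_of_nonneg_right (jd_le x ω) (abs_nonneg _)
      _ = |f ω| := one_mul _
  refine ⟨hint, ?_⟩
  set s : ℝ := Real.exp (-(c / 2 * x ^ 2)) with hs
  have hs0 : 0 < s := Real.exp_pos _
  have hss : s * s = Real.exp (-(c * x ^ 2)) := by
    rw [hs, ← Real.exp_add]
    congr 1
    ring
  have hpt : ∀ ω, jd x ω * |f ω| ≤ s / 2 * |f ω| ^ 2 + 1 / (2 * s) * jd x ω := by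
    intro ω
    have h1 : jd x ω * jd x ω = jd x ω := by
      unfold jd
      by_cases hh : ω ∈ {ω | x < MM ω}
      · rw [Set.indicator_of_mem hh]; norm_num
      · rw [Set.indicator_of_notMem hh]; norm_num
    have h2 : 0 ≤ (s * |f ω| - jd x ω) ^ 2 / (2 * s) := by positivity
    have h3 : (s * |f ω| - jd x ω) ^ 2 / (2 * s)
        = s / 2 * |f ω| ^ 2 + 1 / (2 * s) * (jd x ω * jd x ω) - jd x ω * |f ω| := by
      field_simp
      ring
    rw [h1] at h3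
    linarith
  have hP : ∫ ω, jd x ω ∂PP ≤ C * (s * s) := by
    have e1 : ∫ ω, jd x ω ∂PP = PP.real {ω | x < MM ω} := by
      unfold jd
      rw [integral_indicator (measurableSet_lt measurable_const MM_meas)]
      simp
    rw [e1, hss]
    exact ENNReal.toReal_le_of_le_ofReal (by positivity) (h x hx)
  calc ∫ ω, jd x ω * |f ω| ∂PP
      ≤ ∫ ω, (s / 2 * |f ω| ^ 2 + 1 / (2 * s) * jd x ω) ∂PP :=
        integral_mono hint ((hf2.const_mul _).add ((jd_int x).const_mul _)) hpt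
    _ = s / 2 * ∫ ω, |f ω| ^ 2 ∂PP + 1 / (2 * s) * ∫ ω, jd x ω ∂PP := by
        rw [integral_add (hf2.const_mul _) ((jd_int x).const_mul _), integral_const_mul,
          integral_const_mul]
    _ ≤ s / 2 * ∫ ω, |f ω| ^ 2 ∂PP + 1 / (2 * s) * (C * (s * s)) := by gcongr
    _ = (∫ ω, |f ω| ^ 2 ∂PP + C) / 2 * s := by
        field_simp

/-! ### Lower bound for the probability of a long excursion -/

/-- the loops bounded by `R` -/
def AA (R : ℝ) : Set Sp := {ω | ∀ m k, k ≤ 2 ^ m → ‖loop m ω k‖ ≤ R}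

theorem AA_meas (R : ℝ) : MeasurableSet (AA R) := by
  have : AA R = ⋂ m : ℕ, ⋂ k : ℕ, ⋂ _ : k ≤ 2 ^ m, {ω | ‖loop m ω k‖ ≤ R} := by
    ext ω
    simp [AA]
  rw [this]
  refine MeasurableSet.iInter fun m => MeasurableSet.iInter fun k => MeasurableSet.iInter fun _ => ?_
  exact measurableSet_le ((H41.loop_meas m k).norm) measurable_const

theorem exists_AA : ∃ N : ℕ, 0 < PP (AA N) := by
  by_contra hcon
  push Not at hcon
  have h1 : ∀ N : ℕ, PP (AA N) = 0 := fun N => le_antisymm (hcon N) bot_le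
  have h2 : PP (⋃ N : ℕ, AA N) = 0 := by
    rw [measure_iUnion_null_iff]
    exact h1
  have h3 : ∀ᵐ ω ∂PP, ω ∈ ⋃ N : ℕ, AA N := by
    filter_upwards [ae_Bd] with ω ⟨R, hR⟩
    obtain ⟨N, hN⟩ := exists_nat_ge R
    exact Set.mem_iUnion.2 ⟨N, fun m k hk => (hR m k hk).trans hN⟩
  have h4 : PP (⋃ N : ℕ, AA N)ᶜ = 0 := h3
  have h5 : PP Set.univ ≤ PP (⋃ N : ℕ, AA N) + PP (⋃ N : ℕ, AA N)ᶜ := by
    rw [← Set.union_compl_self (⋃ N : ℕ, AA N)]
    exact measure_union_le _ _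
  rw [h2, h4, measure_univ] at h5
  simp at h5

theorem gam_ball (z : ℂ) : ENNReal.ofReal (1 / 2 * Real.exp (-((‖z‖ + 1) ^ 2 / 2)))
    ≤ gam (Metric.closedBall z 1) := by
  rw [H41.gam_density, withDensity_apply _ Metric.isClosed_closedBall.measurableSet]
  have hb : ∀ w ∈ Metric.closedBall z 1,
      ENNReal.ofReal ((2 * Real.pi)⁻¹ * Real.exp (-((‖z‖ + 1) ^ 2 / 2)))
        ≤ gaussianPDF 0 1 w.re * gaussianPDF 0 1 w.im := by
    intro w hw
    rw [H41.density_eq]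
    apply ENNReal.ofReal_le_ofReal
    apply mul_le_mul_of_nonneg_left _ (by positivity)
    apply Real.exp_le_exp.2
    have h1 : ‖w‖ ≤ ‖z‖ + 1 := by
      have h2 : ‖w - z‖ ≤ 1 := by
        rw [← dist_eq_norm]; exact hw
      calc ‖w‖ = ‖z + (w - z)‖ := by congr 1; ring
        _ ≤ ‖z‖ + ‖w - z‖ := norm_add_le _ _
        _ ≤ ‖z‖ + 1 := by gcongr
    have h3 : ‖w‖ ^ 2 ≤ (‖z‖ + 1) ^ 2 := pow_le_pow_left₀ (norm_nonneg _) h1 2
    linarith
  refine le_trans ?_ (setLIntegral_mono' Metric.isClosed_closedBall.measurableSet hb)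
  rw [setLIntegral_const, Complex.volume_closedBall]
  rw [show (ENNReal.ofReal 1) ^ 2 * (NNReal.pi : ℝ≥0∞) = ENNReal.ofReal Real.pi by
    rw [ENNReal.ofReal_one, one_pow, one_mul]
    rw [← NNReal.coe_real_pi, ENNReal.ofReal_coe_nnreal]]
  rw [← ENNReal.ofReal_mul (by positivity)]
  apply ENNReal.ofReal_le_ofReal
  have := Real.pi_pos
  field_simp
  exact le_rfl

/-- the event: the loop makes an excursion to `z` -/
def Ev (R : ℝ) (z : ℂ) : Set Sp := {ω | ω [] ∈ Metric.closedBall z 1 ∧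
  (fun l => ω (true :: l)) ∈ AA R ∧ (fun l => ω (false :: l)) ∈ AA R}

theorem Ev_meas (R : ℝ) (z : ℂ) : MeasurableSet (Ev R z) := by
  have h1 : ∀ b : Bool, Measurable fun ω : Sp => (fun l => ω (b :: l) : Sp) := fun b =>
    measurable_pi_lambda _ fun l => measurable_pi_apply (b :: l)
  have e : Ev R z = (fun ω : Sp => ω []) ⁻¹' Metric.closedBall z 1 ∩
      ((fun ω : Sp => (fun l => ω (true :: l) : Sp)) ⁻¹' AA R ∩
        (fun ω : Sp => (fun l => ω (false :: l) : Sp)) ⁻¹' AA R) := rfl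
  rw [e]
  exact ((measurable_pi_apply _) Metric.isClosed_closedBall.measurableSet).inter
    (((h1 true) (AA_meas R)).inter ((h1 false) (AA_meas R)))

theorem PP_Ev (R : ℝ) (z : ℂ) :
    PP (Ev R z) = gam (Metric.closedBall z 1) * (PP (AA R) * PP (AA R)) := by
  have h := (split_stmt).measure_preimage (Ev_meas R z).nullMeasurableSet
  rw [← h]
  have e : Pool.Agent.H62T.join ⁻¹' Ev R z = Metric.closedBall z 1 ×ˢ (AA R ×ˢ AA R) := by
    ext ⟨q, w1, w2⟩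
    constructor
    · rintro ⟨h1, h2, h3⟩
      exact ⟨h1, h2, h3⟩
    · rintro ⟨h1, h2, h3⟩
      exact ⟨h1, h2, h3⟩
  rw [e, Measure.prod_prod, Measure.prod_prod]

theorem exists_b : ∃ (R b : ℝ), 0 < R ∧ 0 < b ∧ ∀ z : ℂ,
    b * Real.exp (-(‖z‖ ^ 2)) ≤ PP.real (Ev R z) := by
  obtain ⟨N, hN⟩ := exists_AA
  refine ⟨(N : ℝ) + 1, 1 / 2 * Real.exp (-1) * (PP (AA N)).toReal ^ 2, by positivity, ?_, fun z => ?_⟩
  · have : 0 < (PP (AA N)).toReal := ENNReal.toReal_pos hN.ne' (measure_ne_top _ _)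
    positivity
  · have hmono : AA N ⊆ AA ((N : ℝ) + 1) := fun ω hω m k hk => (hω m k hk).trans (by linarith)
    have h1 : PP.real (Ev N z) ≤ PP.real (Ev ((N : ℝ) + 1) z) := by
      apply measureReal_mono
      · intro ω ⟨a, b, c⟩
        exact ⟨a, hmono b, hmono c⟩
      · exact measure_ne_top _ _
    refine le_trans ?_ h1
    have h2 : PP.real (Ev N z) = (gam (Metric.closedBall z 1)).toReal * (PP (AA N)).toReal ^ 2 := by
      unfold Measure.real
      rw [PP_Ev, ENNReal.toReal_mul, ENNReal.toReal_mul]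
      ring
    rw [h2]
    have h3 : 1 / 2 * Real.exp (-((‖z‖ + 1) ^ 2 / 2)) ≤ (gam (Metric.closedBall z 1)).toReal :=
      (ENNReal.ofReal_le_iff_le_toReal (measure_ne_top _ _)).1 (gam_ball z)
    have h4 : Real.exp (-1) * Real.exp (-(‖z‖ ^ 2)) ≤ Real.exp (-((‖z‖ + 1) ^ 2 / 2)) := by
      rw [← Real.exp_add]
      apply Real.exp_le_exp.2
      nlinarith [sq_nonneg (‖z‖ - 1)]
    calc 1 / 2 * Real.exp (-1) * (PP (AA N)).toReal ^ 2 * Real.exp (-(‖z‖ ^ 2))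
        = 1 / 2 * (Real.exp (-1) * Real.exp (-(‖z‖ ^ 2))) * (PP (AA N)).toReal ^ 2 := by ring
      _ ≤ 1 / 2 * Real.exp (-((‖z‖ + 1) ^ 2 / 2)) * (PP (AA N)).toReal ^ 2 := by gcongr
      _ ≤ (gam (Metric.closedBall z 1)).toReal * (PP (AA N)).toReal ^ 2 := by gcongr

theorem Ev_loop {R : ℝ} {z : ℂ} {ω : Sp} (hω : ω ∈ Ev R z) (hR : 0 ≤ R) (m k : ℕ)
    (hk : k ≤ 2 ^ m) : ∃ (a : ℝ) (w : ℂ), 0 ≤ a ∧ a ≤ 1 ∧ ‖w‖ ≤ R ∧
      loop m ω k = (a : ℂ) * ω [] + w := by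
  obtain ⟨-, h1, h2⟩ := hω
  have hs0 : (0 : ℝ) ≤ Real.sqrt (1 / 2) := Real.sqrt_nonneg _
  have hs1 : Real.sqrt (1 / 2) ≤ 1 := Real.sqrt_le_one.2 (by norm_num)
  cases m with
  | zero => exact ⟨0, 0, le_rfl, zero_le_one, by simpa using hR, by simp [loop]⟩
  | succ m =>
    have hp : (0 : ℝ) < 2 ^ m := by positivity
    by_cases hlt : k < 2 ^ m
    · have hk' : (k : ℝ) ≤ 2 ^ m := by exact_mod_cast hlt.le
      refine ⟨k / 2 ^ m * Real.sqrt (1 / 2),
        (Real.sqrt (1 / 2) : ℂ) * loop m (fun l => ω (true :: l)) k, by positivity, ?_, ?_, ?_⟩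
      · calc (k : ℝ) / 2 ^ m * Real.sqrt (1 / 2) ≤ 1 * 1 := by
              gcongr
              rw [div_le_one hp]; exact hk'
          _ = 1 := one_mul _
      · rw [norm_mul, Complex.norm_real, Real.norm_of_nonneg hs0]
        calc Real.sqrt (1 / 2) * ‖loop m (fun l => ω (true :: l)) k‖
            ≤ 1 * R := mul_le_mul hs1 (h1 m k hlt.le) (norm_nonneg _) zero_le_one
          _ = R := one_mul _
      · rw [H13Loop.loop_succ_lt _ _ _ hlt]
    · have hk' : (k : ℝ) ≤ 2 ^ (m + 1) := by exact_mod_cast hk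
      have hk'' : (2 : ℝ) ^ m ≤ k := by exact_mod_cast not_lt.1 hlt
      have hk3 : k - 2 ^ m ≤ 2 ^ m := by
        rw [pow_succ] at hk; omega
      have hp2 : (2 : ℝ) ^ (m + 1) = 2 * 2 ^ m := by ring
      refine ⟨(2 ^ (m + 1) - k) / 2 ^ m * Real.sqrt (1 / 2),
        (Real.sqrt (1 / 2) : ℂ) * loop m (fun l => ω (false :: l)) (k - 2 ^ m), ?_, ?_, ?_, ?_⟩
      · apply mul_nonneg _ hs0
        apply div_nonneg _ hp.le
        linarith
      · calc ((2 : ℝ) ^ (m + 1) - k) / 2 ^ m * Real.sqrt (1 / 2) ≤ 1 * 1 := by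
              apply mul_le_mul _ hs1 hs0 zero_le_one
              rw [div_le_one hp]
              linarith
          _ = 1 := one_mul _
      · rw [norm_mul, Complex.norm_real, Real.norm_of_nonneg hs0]
        calc Real.sqrt (1 / 2) * ‖loop m (fun l => ω (false :: l)) (k - 2 ^ m)‖
            ≤ 1 * R := mul_le_mul hs1 (h2 m _ hk3) (norm_nonneg _) zero_le_one
          _ = R := one_mul _
      · rw [H13Loop.loop_succ_ge _ _ _ hlt]

theorem Ev_Bd {R : ℝ} {z : ℂ} {ω : Sp} (hω : ω ∈ Ev R z) (hR : 0 ≤ R) : Bd ω := by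
  refine ⟨‖ω []‖ + R, fun m k hk => ?_⟩
  obtain ⟨a, w, ha0, ha1, hw, e⟩ := Ev_loop hω hR m k hk
  rw [e]
  calc ‖(a : ℂ) * ω [] + w‖ ≤ ‖(a : ℂ) * ω []‖ + ‖w‖ := norm_add_le _ _
    _ = a * ‖ω []‖ + ‖w‖ := by rw [norm_mul, Complex.norm_real, Real.norm_of_nonneg ha0]
    _ ≤ 1 * ‖ω []‖ + R := by gcongr
    _ = ‖ω []‖ + R := by rw [one_mul]

/-- upper bound for the support function on the event -/
theorem Ev_hs_le {R : ℝ} {z : ℂ} {ω : Sp} (hω : ω ∈ Ev R z) (hR : 0 ≤ R) {u : ℂ} (hu : ‖u‖ = 1) :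
    hs ω u ≤ max 0 (ip u z) + 1 + R := by
  have hm : 0 ≤ max 0 (ip u z) := le_max_left _ _
  refine hs_le_of (by positivity) fun m k hk => ?_
  obtain ⟨a, w, ha0, ha1, hw, e⟩ := Ev_loop hω hR m k hk
  have h1 : ‖ω [] - z‖ ≤ 1 := by
    rw [← dist_eq_norm]; exact hω.1
  have e2 : ip u ((a : ℂ) * ω [] + w) = a * ip u z + a * ip u (ω [] - z) + ip u w := by
    simp [ip]; ring
  rw [e, e2]
  have h2 : ip u (ω [] - z) ≤ 1 := by
    have := H41.ip_le u (ω [] - z)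
    rw [hu, one_mul] at this
    linarith
  have h3 : ip u w ≤ R := by
    have := H41.ip_le u w
    rw [hu, one_mul] at this
    linarith
  have h4 : a * ip u z ≤ max 0 (ip u z) := by
    calc a * ip u z ≤ a * max 0 (ip u z) := mul_le_mul_of_nonneg_left (le_max_right _ _) ha0
      _ ≤ 1 * max 0 (ip u z) := mul_le_mul_of_nonneg_right ha1 hm
      _ = max 0 (ip u z) := one_mul _
  have h5 : a * ip u (ω [] - z) ≤ 1 := by
    calc a * ip u (ω [] - z) ≤ a * 1 := mul_le_mul_of_nonneg_left h2 ha0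
      _ ≤ 1 := by linarith
  linarith

/-- lower bound for the support function on the event -/
theorem Ev_le_hs {R : ℝ} {z : ℂ} {ω : Sp} (hω : ω ∈ Ev R z) (hR : 0 ≤ R) {u : ℂ} (hu : ‖u‖ = 1)
    (hz : 0 ≤ ip u z) : ip u z / 2 - 1 ≤ hs ω u := by
  have h0 := le_hs (Ev_Bd hω hR) u (m := 1) (k := 1) (by norm_num)
  refine le_trans ?_ h0
  have e1 : loop 1 ω 1 = (Real.sqrt (1 / 2) : ℂ) * ω [] := by
    have hh : ¬ (1 : ℕ) < 2 ^ 0 := by norm_num
    rw [H13Loop.loop_succ_ge 0 ω 1 hh]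
    simp [loop]
    norm_num
  have h1 : ‖ω [] - z‖ ≤ 1 := by
    rw [← dist_eq_norm]; exact hω.1
  have e2 : ip u ((Real.sqrt (1 / 2) : ℂ) * ω [])
      = Real.sqrt (1 / 2) * ip u z + Real.sqrt (1 / 2) * ip u (ω [] - z) := by
    generalize Real.sqrt (1 / 2) = q
    simp [ip]; ring
  rw [e1, e2]
  have h2 : -1 ≤ ip u (ω [] - z) := by
    have := H85.abs_ip_le u (ω [] - z)
    rw [hu, one_mul] at this
    have := (abs_le.1 (this.trans h1)).1
    exact this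
  have hs0 : (0 : ℝ) ≤ Real.sqrt (1 / 2) := Real.sqrt_nonneg _
  have hs1 : Real.sqrt (1 / 2) ≤ 1 := Real.sqrt_le_one.2 (by norm_num)
  have hs2 : 1 / 2 ≤ Real.sqrt (1 / 2) := by
    apply Real.le_sqrt_of_sq_le
    norm_num
  have h3 : 1 / 2 * ip u z ≤ Real.sqrt (1 / 2) * ip u z := mul_le_mul_of_nonneg_right hs2 hz
  have h4 : -1 ≤ Real.sqrt (1 / 2) * ip u (ω [] - z) := by nlinarith
  linarith

end Pool.Agent.H5O.H92
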