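import Pool.Agent.Helper5_OPEN.Stmt
import Pool.Agent.Helper92_OPEN.RateA

/-!
Module RATE: the sides of a convex polygon are bounded below in terms of the sides of an
isospectral one.
-/

namespace Pool.Agent.H5O.H92

open MeasureTheory Complex Filter Topology Pool.Agent.H16Iso Pool.Agent.H1Gen
open Pool.Agent.H62T (ip Poly Vol IsQuad hs Sp PP)

/-! ### Quadratic polynomials -/

/-- affine functions -/
def IsAff {n : ℕ} (L : (Fin n → ℝ) → ℝ) : Prop :=
  ∃ (a0 : ℝ) (a : Fin n → ℝ), ∀ h, L h = a0 + ∑ i, a i * h i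

section
variable {n : ℕ} {L L' : (Fin n → ℝ) → ℝ}

theorem IsAff.const (c : ℝ) : IsAff (fun _ : Fin n → ℝ => c) := ⟨c, 0, fun h => by simp⟩

theorem IsAff.coord (i : Fin n) : IsAff (fun h : Fin n → ℝ => h i) :=
  ⟨0, Pi.single i 1, fun h => by simp [Pi.single_apply]⟩

theorem IsAff.add (h1 : IsAff L) (h2 : IsAff L') : IsAff (fun h => L h + L' h) := by
  obtain ⟨a0, a, ha⟩ := h1
  obtain ⟨b0, b, hb⟩ := h2
  refine ⟨a0 + b0, fun i => a i + b i, fun h => ?_⟩
  beta_reduce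
  rw [ha, hb]
  simp only [add_mul, Finset.sum_add_distrib]
  ring

theorem IsAff.smul (c : ℝ) (h1 : IsAff L) : IsAff (fun h => c * L h) := by
  obtain ⟨a0, a, ha⟩ := h1
  refine ⟨c * a0, fun i => c * a i, fun h => ?_⟩
  beta_reduce
  rw [ha, mul_add, Finset.mul_sum]
  congr 1
  exact Finset.sum_congr rfl fun i _ => by ring

theorem IsAff.mul (h1 : IsAff L) (h2 : IsAff L') : IsQuad (fun h => L h * L' h) := by
  obtain ⟨a0, a, ha⟩ := h1
  obtain ⟨b0, b, hb⟩ := h2
  refine ⟨a0 * b0, fun i => a0 * b i + b0 * a i, fun i j => a i * b j, fun h => ?_⟩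
  beta_reduce
  rw [ha, hb]
  have e1 : ∑ i, (a0 * b i + b0 * a i) * h i = a0 * ∑ i, b i * h i + b0 * ∑ i, a i * h i := by
    rw [Finset.mul_sum, Finset.mul_sum, ← Finset.sum_add_distrib]
    exact Finset.sum_congr rfl fun i _ => by ring
  have e2 : ∑ i, ∑ j, a i * b j * h i * h j = (∑ i, a i * h i) * ∑ i, b i * h i := by
    rw [Finset.sum_mul_sum]
    exact Finset.sum_congr rfl fun i _ => Finset.sum_congr rfl fun j _ => by ring
  rw [e1, e2]
  ring

theorem isQuad_add (h1 : IsQuad L) (h2 : IsQuad L') : IsQuad (fun h => L h + L' h) := by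
  obtain ⟨a0, a, a', ha⟩ := h1
  obtain ⟨b0, b, b', hb⟩ := h2
  refine ⟨a0 + b0, fun i => a i + b i, fun i j => a' i j + b' i j, fun h => ?_⟩
  beta_reduce
  rw [ha, hb]
  simp only [add_mul, Finset.sum_add_distrib]
  ring

theorem isQuad_smul (c : ℝ) (h1 : IsQuad L) : IsQuad (fun h => c * L h) := by
  obtain ⟨a0, a, a', ha⟩ := h1
  refine ⟨c * a0, fun i => c * a i, fun i j => c * a' i j, fun h => ?_⟩
  beta_reduce
  rw [ha, mul_add, mul_add, Finset.mul_sum, Finset.mul_sum]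
  congr 1
  · congr 1
    exact Finset.sum_congr rfl fun i _ => by ring
  · refine Finset.sum_congr rfl fun i _ => ?_
    rw [Finset.mul_sum]
    exact Finset.sum_congr rfl fun j _ => by ring

theorem isQuad_sum {ι : Type*} (s : Finset ι) {F : ι → (Fin n → ℝ) → ℝ}
    (h : ∀ i ∈ s, IsQuad (F i)) : IsQuad (fun x => ∑ i ∈ s, F i x) := by
  classical
  induction s using Finset.induction_on with
  | empty => exact ⟨0, 0, 0, fun x => by simp⟩
  | insert i s hi ih =>
    simp only [Finset.sum_insert hi]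
    exact isQuad_add (h i (Finset.mem_insert_self i s))
      (ih fun j hj => h j (Finset.mem_insert_of_mem hj))

end

theorem aff_ln {n : ℕ} (v : Fin (n + 3) → ℂ) (j : Fin (n + 3)) : IsAff fun h => ln v h j := by
  have e : ∀ h, ln v h j = (sl v j + (-(sn v j)⁻¹) * (h (j - 1) + (-cs v j) * h j))
      + (-(sn v (j + 1))⁻¹) * (h (j + 1) + (-cs v (j + 1)) * h j) := by
    intro h
    unfold ln
    ring
  have h1 : IsAff fun h : Fin (n + 3) → ℝ => (sl v j + (-(sn v j)⁻¹) * (h (j - 1)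
      + (-cs v j) * h j)) + (-(sn v (j + 1))⁻¹) * (h (j + 1) + (-cs v (j + 1)) * h j) :=
    ((IsAff.const _).add (((IsAff.coord _).add ((IsAff.coord _).smul _)).smul _)).add
      (((IsAff.coord _).add ((IsAff.coord _).smul _)).smul _)
  obtain ⟨a0, a, ha⟩ := h1
  exact ⟨a0, a, fun h => (e h).trans (ha h)⟩

theorem quad_Wv {n : ℕ} (v : Fin (n + 3) → ℂ) : IsQuad (Wv v) := by
  have h1 : IsQuad fun h : Fin (n + 3) → ℝ =>
      (1 / 2 : ℝ) * ∑ j, (Hv v j + (-1) * h j) * ln v h j :=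
    isQuad_smul _ (isQuad_sum _ fun j _ =>
      ((IsAff.const _).add ((IsAff.coord j).smul _)).mul (aff_ln v j))
  obtain ⟨a0, a, a', ha⟩ := h1
  refine ⟨a0, a, a', fun h => ?_⟩
  rw [← ha]
  unfold Wv
  beta_reduce
  rw [div_eq_inv_mul, one_div]
  congr 1
  exact Finset.sum_congr rfl fun j _ => by ring

/-! ### Unit vectors -/

section
variable {n : ℕ} {v : Fin (n + 3) → ℂ}

theorem sl_pos_of (hsn : ∀ j, 0 < sn v j) (j : Fin (n + 3)) : 0 < sl v j := by
  rcases (norm_nonneg (v (j + 1) - v j)).lt_or_eq with h | h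
  · exact h
  · exfalso
    have h1 := hsn j
    have h2 : ev v j = 0 := by
      unfold ev sl
      rw [← h]
      simp
    unfold sn at h1
    rw [h2] at h1
    simp [det] at h1

theorem norm_ev (hsn : ∀ j, 0 < sn v j) (j : Fin (n + 3)) : ‖ev v j‖ = 1 := by
  have h := sl_pos_of hsn j
  unfold ev
  rw [norm_div, Complex.norm_real, Real.norm_of_nonneg h.le]
  exact div_self h.ne'

theorem norm_uv (hsn : ∀ j, 0 < sn v j) (j : Fin (n + 3)) : ‖uv v j‖ = 1 := by
  unfold uv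
  rw [norm_mul, norm_neg, Complex.norm_I, one_mul, norm_ev hsn]

theorem sq_ev (hsn : ∀ j, 0 < sn v j) (j : Fin (n + 3)) :
    (ev v j).re * (ev v j).re + (ev v j).im * (ev v j).im = 1 := by
  have h := norm_ev hsn j
  have h1 : Complex.normSq (ev v j) = 1 := by
    rw [Complex.normSq_eq_norm_sq, h]; norm_num
  rwa [Complex.normSq_apply] at h1

theorem uv_prev (hsn : ∀ j, 0 < sn v j) (j : Fin (n + 3)) :
    uv v (j - 1) = (cs v j : ℂ) * uv v j + (sn v j : ℂ) * (-ev v j) := by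
  have h := sq_ev hsn j
  unfold uv cs sn ip det
  apply Complex.ext
  · simp
    linear_combination (-(ev v (j - 1)).im) * h
  · simp
    linear_combination ((ev v (j - 1)).re) * h

theorem uv_next (hsn : ∀ j, 0 < sn v j) (j : Fin (n + 3)) :
    uv v (j + 1) = (cs v (j + 1) : ℂ) * uv v j + (sn v (j + 1) : ℂ) * ev v j := by
  have h := sq_ev hsn j
  unfold uv cs sn ip det
  rw [add_sub_cancel_right]
  apply Complex.ext
  · simp
    linear_combination (-(ev v (j + 1)).im) * h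
  · simp
    linear_combination ((ev v (j + 1)).re) * h

theorem abs_cs (hsn : ∀ j, 0 < sn v j) (j : Fin (n + 3)) : |cs v j| ≤ 1 := by
  have h := H62T.H85.abs_ip_le (ev v (j - 1)) (ev v j)
  rw [norm_ev hsn, norm_ev hsn, one_mul] at h
  exact h

end

/-! ### The two sides of the estimate for the length -/

theorem side_le {ω : Sp} (hω : Bd ω) {a b w : ℂ} {c s cc : ℝ} (ha : ‖a‖ = 1) (hb : ‖b‖ = 1)
    (hw : ‖w‖ = 1) (hs' : 0 < s) (hc : |c| ≤ 1) (e : a = (c : ℂ) * b + (s : ℂ) * w) (hcc : 0 < cc)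
    (h : c < 0 → cc ≤ s) : (hs ω a - hs ω b * c) / s ≤ (1 + 2 / cc) * MM ω := by
  have hM := MM_nn ω
  have h1 : hs ω a ≤ MM ω := hs_le_MM hω ha.le
  have h2 : hs ω b ≤ MM ω := hs_le_MM hω hb.le
  have h3 : hs ω w ≤ MM ω := hs_le_MM hω hw.le
  have h0 := hs_nn ω b
  rw [div_le_iff₀ hs']
  rcases le_or_gt 0 c with hc0 | hc0
  · have h4 : hs ω a ≤ c * hs ω b + s * hs ω w := by
      rw [e]
      exact hs_comb hω hc0 hs'.le b w
    have h5 : s * hs ω w ≤ s * MM ω := mul_le_mul_of_nonneg_left h3 hs'.le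
    have h6 : 0 ≤ 2 / cc * MM ω * s := by positivity
    nlinarith
  · have h4 := h hc0
    have h5 : 2 * MM ω ≤ 2 / cc * MM ω * s := by
      have : 2 * MM ω = 2 / cc * MM ω * cc := by field_simp
      rw [this]
      exact mul_le_mul_of_nonneg_left h4 (by positivity)
    have h6 : 0 ≤ 1 * MM ω * s := by positivity
    have h7 : -(hs ω b * c) ≤ MM ω := by
      have : -c ≤ 1 := by linarith [(abs_le.1 hc).1]
      nlinarith
    nlinarith

theorem ln_ge {n : ℕ} {v : Fin (n + 3) → ℂ} (hsn : ∀ j, 0 < sn v j) {cc : ℝ} (hcc : 0 < cc)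
    (h : ∀ j, cs v j < 0 → cc ≤ sn v j) {ω : Sp} (hω : Bd ω) {s : ℝ} (hs0 : 0 ≤ s)
    (j : Fin (n + 3)) :
    sl v j - 2 * (1 + 2 / cc) * (s * MM ω) ≤ ln v (fun i => s * hs ω (uv v i)) j := by
  have h1 := side_le hω (norm_uv hsn (j - 1)) (norm_uv hsn j)
    (by rw [norm_neg]; exact norm_ev hsn j) (hsn j) (abs_cs hsn j) (uv_prev hsn j) hcc (h j)
  have h2 := side_le hω (norm_uv hsn (j + 1)) (norm_uv hsn j)
    (norm_ev hsn j) (hsn (j + 1)) (abs_cs hsn (j + 1)) (uv_next hsn j) hcc (h (j + 1))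
  have e1 : (s * hs ω (uv v (j - 1)) - s * hs ω (uv v j) * cs v j) / sn v j
      = s * ((hs ω (uv v (j - 1)) - hs ω (uv v j) * cs v j) / sn v j) := by ring
  have e2 : (s * hs ω (uv v (j + 1)) - s * hs ω (uv v j) * cs v (j + 1)) / sn v (j + 1)
      = s * ((hs ω (uv v (j + 1)) - hs ω (uv v j) * cs v (j + 1)) / sn v (j + 1)) := by ring
  unfold ln
  simp only
  rw [e1, e2]
  have h3 := mul_le_mul_of_nonneg_left h1 hs0
  have h4 := mul_le_mul_of_nonneg_left h2 hs0
  nlinarith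

/-! ### Comparison of the area with the formal area -/

section
variable {n : ℕ} {u : Fin n → ℂ} {H : Fin n → ℝ} {W : (Fin n → ℝ) → ℝ}

theorem vol_err (hb : Bornology.IsBounded (Poly u H)) (hne : (Poly u H).Nonempty)
    (hW : IsQuad W) :
    ∃ B : Sp → ℝ, H62T.H9.AM B ∧ (∀ ω, 0 ≤ B ω) ∧ ∀ s : ℝ, 0 < s → s ≤ 1 → ∀ ω,
      |Vol u H (fun i => s * hs ω (u i)) - W (fun i => s * hs ω (u i))| ≤ B ω := by
  obtain ⟨w0, w1, w2, hW⟩ := hW
  set V0 : ℝ := (volume {x : ℂ | ∀ i, ip (u i) x ≤ H i}).toReal with hV0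
  have hV0' : 0 ≤ V0 := ENNReal.toReal_nonneg
  have aS : ∀ z, H62T.H9.AM fun ω => hs ω z := fun z => H62T.H9.AM.hs mom' z
  refine ⟨fun ω => V0 + (|w0| + ∑ i, |w1 i| * hs ω (u i) +
    ∑ i, ∑ j, |w2 i j| * (hs ω (u i) * hs ω (u j))), ?_, ?_, ?_⟩
  · exact (H62T.H9.AM.const V0).add (((H62T.H9.AM.const |w0|).add
      (H62T.H9.AM.sum _ fun i _ => (aS (u i)).const_mul |w1 i|)).add
      (H62T.H9.AM.sum _ fun i _ => H62T.H9.AM.sum _ fun j _ =>
        ((aS (u i)).mul (aS (u j))).const_mul |w2 i j|))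
  · intro ω
    have h1 : 0 ≤ ∑ i, |w1 i| * hs ω (u i) :=
      Finset.sum_nonneg fun i _ => mul_nonneg (abs_nonneg _) (hs_nn _ _)
    have h2 : 0 ≤ ∑ i, ∑ j, |w2 i j| * (hs ω (u i) * hs ω (u j)) :=
      Finset.sum_nonneg fun i _ => Finset.sum_nonneg fun j _ =>
        mul_nonneg (abs_nonneg _) (mul_nonneg (hs_nn _ _) (hs_nn _ _))
    have h3 := abs_nonneg w0
    positivity
  · intro s hs1 hs2 ω
    have h4 : |Vol u H (fun i => s * hs ω (u i))| ≤ V0 := by
      rw [abs_of_nonneg (H62T.H9.Vol_nonneg _ _ _)]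
      exact H62T.H9.Vol_le hb hne fun i => mul_nonneg hs1.le (hs_nn _ _)
    have h5 : |W (fun i => s * hs ω (u i))| ≤ |w0| + ∑ i, |w1 i| * hs ω (u i) +
        ∑ i, ∑ j, |w2 i j| * (hs ω (u i) * hs ω (u j)) := by
      rw [hW]
      have e1 : |∑ i, w1 i * (s * hs ω (u i))| ≤ ∑ i, |w1 i| * hs ω (u i) := by
        refine (Finset.abs_sum_le_sum_abs _ _).trans (Finset.sum_le_sum fun i _ => ?_)
        rw [abs_mul, abs_mul, abs_of_pos hs1, abs_of_nonneg (hs_nn _ _)]
        have := mul_nonneg (abs_nonneg (w1 i)) (hs_nn ω (u i))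
        calc |w1 i| * (s * hs ω (u i)) = s * (|w1 i| * hs ω (u i)) := by ring
          _ ≤ 1 * (|w1 i| * hs ω (u i)) := mul_le_mul_of_nonneg_right hs2 this
          _ = _ := one_mul _
      have e3 : |∑ i, ∑ j, w2 i j * (s * hs ω (u i)) * (s * hs ω (u j))|
          ≤ ∑ i, ∑ j, |w2 i j| * (hs ω (u i) * hs ω (u j)) := by
        refine (Finset.abs_sum_le_sum_abs _ _).trans (Finset.sum_le_sum fun i _ => ?_)
        refine (Finset.abs_sum_le_sum_abs _ _).trans (Finset.sum_le_sum fun j _ => ?_)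
        rw [abs_mul, abs_mul, abs_mul, abs_mul, abs_of_pos hs1, abs_of_nonneg (hs_nn _ _),
          abs_of_nonneg (hs_nn _ _)]
        have h7 : 0 ≤ |w2 i j| * (hs ω (u i) * hs ω (u j)) :=
          mul_nonneg (abs_nonneg _) (mul_nonneg (hs_nn _ _) (hs_nn _ _))
        have h8 : s ^ 2 ≤ 1 := pow_le_one₀ hs1.le hs2
        calc |w2 i j| * (s * hs ω (u i)) * (s * hs ω (u j))
            = s ^ 2 * (|w2 i j| * (hs ω (u i) * hs ω (u j))) := by ring
          _ ≤ 1 * (|w2 i j| * (hs ω (u i) * hs ω (u j))) := mul_le_mul_of_nonneg_right h8 h7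
          _ = _ := one_mul _
      calc |w0 + ∑ i, w1 i * (s * hs ω (u i)) + ∑ i, ∑ j, w2 i j * (s * hs ω (u i)) *
            (s * hs ω (u j))|
          ≤ |w0| + |∑ i, w1 i * (s * hs ω (u i))| + |∑ i, ∑ j, w2 i j * (s * hs ω (u i)) *
            (s * hs ω (u j))| :=
            (abs_add_le _ _).trans (add_le_add_left (abs_add_le _ _) _)
        _ ≤ _ := by gcongr
    calc |Vol u H (fun i => s * hs ω (u i)) - W (fun i => s * hs ω (u i))|
        ≤ |Vol u H (fun i => s * hs ω (u i))| + |W (fun i => s * hs ω (u i))| := abs_sub _ _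
      _ ≤ _ := add_le_add h4 h5

variable {c : ℝ}

/-- the property of `exp_err` -/
def Ec (c : ℝ) : Prop := ∀ f : Sp → ℝ, H62T.H9.AM f → ∃ K : ℝ, 0 ≤ K ∧ ∀ x : ℝ, 0 < x →
    Integrable (fun ω => jd x ω * |f ω|) PP ∧
    ∫ ω, jd x ω * |f ω| ∂PP ≤ K * Real.exp (-(c * x ^ 2))

theorem upper (hc : Ec c) (hb : Bornology.IsBounded (Poly u H)) (hne : (Poly u H).Nonempty)
    (hW : IsQuad W) (iV : ∀ s : ℝ, 0 ≤ s → Integrable (fun ω => Vol u H fun i => s * hs ω (u i)) PP)
    (iW : ∀ s : ℝ, Integrable (fun ω => W fun i => s * hs ω (u i)) PP) {θ : ℝ} (hθ : 0 < θ)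
    (hsm : ∀ s : ℝ, 0 < s → s ≤ 1 → ∀ ω, Bd ω → s * MM ω ≤ θ →
      Vol u H (fun i => s * hs ω (u i)) = W (fun i => s * hs ω (u i))) :
    ∃ K : ℝ, 0 ≤ K ∧ ∀ s : ℝ, 0 < s → s ≤ 1 →
      |∫ ω, Vol u H (fun i => s * hs ω (u i)) ∂PP - ∫ ω, W (fun i => s * hs ω (u i)) ∂PP|
        ≤ K * Real.exp (-(c * (θ / s) ^ 2)) := by
  obtain ⟨B, hB, hB0, hBb⟩ := vol_err hb hne hW
  obtain ⟨K, hK, h⟩ := hc B hB
  refine ⟨K, hK, fun s hs0 hs1 => ?_⟩
  obtain ⟨i1, i2⟩ := h (θ / s) (by positivity)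
  rw [← integral_sub (iV s hs0.le) (iW s)]
  refine (abs_integral_le_integral_abs).trans (le_trans ?_ i2)
  refine integral_mono_ae ((iV s hs0.le).sub (iW s)).abs i1 ?_
  filter_upwards [ae_Bd] with ω hω
  by_cases hh : s * MM ω ≤ θ
  · rw [hsm s hs0 hs1 ω hω hh, sub_self, abs_zero]
    exact mul_nonneg (jd_nn _ _) (abs_nonneg _)
  · have h1 : jd (θ / s) ω = 1 := by
      apply jd_one
      rw [div_lt_iff₀ hs0]
      linarith
    rw [h1, one_mul, abs_of_nonneg (hB0 ω)]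
    exact hBb s hs0 hs1 ω

theorem lower (hc : Ec c) (hb : Bornology.IsBounded (Poly u H)) (hne : (Poly u H).Nonempty)
    (hW : IsQuad W) (iV : ∀ s : ℝ, 0 ≤ s → Integrable (fun ω => Vol u H fun i => s * hs ω (u i)) PP)
    (iW : ∀ s : ℝ, Integrable (fun ω => W fun i => s * hs ω (u i)) PP) {r : ℝ} (hr : 0 < r)
    (hsm : ∀ s : ℝ, 0 < s → s ≤ 1 → ∀ ω, Bd ω → s * MM ω ≤ r →
      W (fun i => s * hs ω (u i)) ≤ Vol u H (fun i => s * hs ω (u i))) :
    ∃ K : ℝ, 0 ≤ K ∧ ∀ s : ℝ, 0 < s → s ≤ 1 → ∀ (E : Set Sp) (κ : ℝ), MeasurableSet E →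
      (∀ ω ∈ E, Bd ω → s * MM ω ≤ r) →
      (∀ ω ∈ E, Bd ω → W (fun i => s * hs ω (u i)) + κ ≤ Vol u H (fun i => s * hs ω (u i))) →
      κ * PP.real E ≤ ∫ ω, Vol u H (fun i => s * hs ω (u i)) ∂PP
        - ∫ ω, W (fun i => s * hs ω (u i)) ∂PP + K * Real.exp (-(c * (r / s) ^ 2)) := by
  obtain ⟨B, hB, hB0, hBb⟩ := vol_err hb hne hW
  obtain ⟨K, hK, h⟩ := hc B hB
  refine ⟨K, hK, fun s hs0 hs1 E κ hE hE1 hE2 => ?_⟩
  obtain ⟨i1, i2⟩ := h (r / s) (by positivity)
  rw [← integral_sub (iV s hs0.le) (iW s)]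
  have iE : Integrable (fun ω => κ * E.indicator (fun _ => (1 : ℝ)) ω) PP :=
    ((integrable_const (1 : ℝ)).indicator hE).const_mul _
  have e1 : ∫ ω, κ * E.indicator (fun _ => (1 : ℝ)) ω ∂PP = κ * PP.real E := by
    rw [integral_const_mul, integral_indicator hE]
    simp
  rw [← e1]
  have h2 : ∫ ω, κ * E.indicator (fun _ => (1 : ℝ)) ω ∂PP ≤
      ∫ ω, ((Vol u H (fun i => s * hs ω (u i)) - W (fun i => s * hs ω (u i)))
        + jd (r / s) ω * |B ω|) ∂PP := by
    refine integral_mono_ae iE (((iV s hs0.le).sub (iW s)).add i1) ?_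
    filter_upwards [ae_Bd] with ω hω
    by_cases hh : s * MM ω ≤ r
    · have h3 : 0 ≤ jd (r / s) ω * |B ω| := mul_nonneg (jd_nn _ _) (abs_nonneg _)
      by_cases hE' : ω ∈ E
      · rw [Set.indicator_of_mem hE', mul_one]
        have := hE2 ω hE' hω
        linarith
      · rw [Set.indicator_of_notMem hE', mul_zero]
        have := hsm s hs0 hs1 ω hω hh
        linarith
    · have h1 : jd (r / s) ω = 1 := by
        apply jd_one
        rw [div_lt_iff₀ hs0]
        linarith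
      have hE' : ω ∉ E := fun hE' => hh (hE1 ω hE' hω)
      rw [Set.indicator_of_notMem hE', mul_zero, h1, one_mul, abs_of_nonneg (hB0 ω)]
      have := (abs_le.1 (hBb s hs0 hs1 ω)).1
      linarith
  have i3 : Integrable (fun ω => Vol u H (fun i => s * hs ω (u i))
      - W (fun i => s * hs ω (u i))) PP := (iV s hs0.le).sub (iW s)
  rw [integral_add i3 i1] at h2
  linarith

end

/-! ### Polygons -/

theorem poly_bdd {n : ℕ} (v : Fin n → ℂ) : Bornology.IsBounded (poly v) :=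
  (((Set.finite_range v).isCompact_convexHull (𝕜 := ℝ)).isBounded).subset interior_subset

/-- the expansion for a polygon -/
theorem expand (hR : RvwStatement) {n : ℕ} {v : Fin (n + 3) → ℂ} (hv : CCW v)
    (hne : (poly v).Nonempty) :
    (∀ s : ℝ, 0 ≤ s → Integrable (fun ω => Vol (uv v) (Hv v) fun i => s * hs ω (uv v i)) PP) ∧
    (∀ s : ℝ, Integrable (fun ω => Wv v fun i => s * hs ω (uv v i)) PP) ∧
    ∃ q0 q1 q2 C : ℝ, (∀ s : ℝ, ∫ ω, Wv v (fun i => s * hs ω (uv v i)) ∂PP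
        = q0 + q1 * s + q2 * s ^ 2) ∧
      ∀ s : ℝ, 0 < s → s ≤ 1 →
        |∫ ω, Vol (uv v) (Hv v) (fun i => s * hs ω (uv v i)) ∂PP
          - ∫ ω, Wv v (fun i => s * hs ω (uv v i)) ∂PP| ≤ C * s ^ 3 := by
  obtain ⟨hsn, hpoly, hvol⟩ := hR n v hv
  have hb : Bornology.IsBounded (Poly (uv v) (Hv v)) := hpoly ▸ poly_bdd v
  have hne' : (Poly (uv v) (Hv v)).Nonempty := hpoly ▸ hne
  -- a lower bound for the sides and the sines
  obtain ⟨j0, hj0⟩ := Finite.exists_min fun j => sl v j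
  obtain ⟨j1, hj1⟩ := Finite.exists_min fun j => sn v j
  have hd := sl_pos_of hsn j0
  have hσ := hsn j1
  refine H62T.H9.expansion mom' hb hne' (quad_Wv v) (δ := sl v j0 * sn v j1 / 4) (by positivity) ?_
  intro h h0 h1
  apply hvol
  intro j
  have hh : ∀ (i k l : Fin (n + 3)), (h i - h k * cs v l) / sn v l ≤ sl v j0 / 2 := by
    intro i k l
    rw [div_le_iff₀ (hsn l)]
    have a1 := h1 i
    have a2 := h1 k
    have a3 := h0 k
    have a4 := (abs_le.1 (abs_cs hsn l)).1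
    have a5 : -(h k * cs v l) ≤ h k := by nlinarith
    have a6 : sl v j0 / 2 * sn v j1 ≤ sl v j0 / 2 * sn v l :=
      mul_le_mul_of_nonneg_left (hj1 l) (by positivity)
    nlinarith
  have b1 := hh (j - 1) j j
  have b2 := hh (j + 1) j (j + 1)
  have b3 := hj0 j
  unfold ln
  linarith

theorem ball_ne {n : ℕ} {v : Fin n → ℂ} {r : ℝ} (hr : 0 < r)
    (h : ∃ c, Metric.ball c r ⊆ poly v) : (poly v).Nonempty := by
  obtain ⟨c, hc⟩ := h
  exact ⟨c, hc (Metric.mem_ball_self hr)⟩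

/-- the sides of a triangle -/
theorem tri_det {w : Fin (0 + 3) → ℂ} (hsn : ∀ j, 0 < sn w j) (j : Fin (0 + 3)) :
    det (ev w (j - 1)) (ev w (j + 1)) ≤ 0 := by
  have e1 : j - 1 = j + 2 := by
    revert j; decide
  have e2 : j + 2 - 1 = j + 1 := by
    revert j; decide
  have h := hsn (j + 2)
  unfold sn at h
  rw [e2] at h
  rw [e1, det_swap]
  linarith

/-- long sides -/
theorem key (hR : RvwStatement) (hL : RlbStatement) {c : ℝ} (hc0 : 0 < c) (hc : Ec c)
    {n m : ℕ} {v : Fin (n + 3) → ℂ} {w : Fin (m + 3) → ℂ} (hv : CCW v) (hw : CCW w)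
    {r cc : ℝ} (hr : 0 < r) (hcc : 0 < cc) (hvs : ∀ j, r ≤ sl v j)
    (hvb : (poly v).Nonempty) (hwb : ∃ c, Metric.ball c r ⊆ poly w)
    (hvc : ∀ j, cs v j < 0 → cc ≤ sn v j) (hiso : Iso v w) (hm : 1 ≤ m) (j : Fin (m + 3))
    (hD : 0 < det (ev w (j - 1)) (ev w (j + 1))) :
    min (r / 25) (Real.sqrt (c * (r / (2 * (1 + 2 / cc))) ^ 2 / 36)) ≤ sl w j := by
  by_contra hcon
  push Not at hcon
  set d : ℝ := sl w j with hd
  set θ : ℝ := r / (2 * (1 + 2 / cc)) with hθ
  have hθ0 : 0 < θ := by positivity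
  have hd1 : d < r / 25 := lt_of_lt_of_le hcon (min_le_left _ _)
  have hd2 : d < Real.sqrt (c * θ ^ 2 / 36) := lt_of_lt_of_le hcon (min_le_right _ _)
  obtain ⟨hsnv, hpolyv, hvolv⟩ := hR n v hv
  obtain ⟨hsnw, hpolyw, hvolw⟩ := hR m w hw
  have hd0 : 0 < d := sl_pos_of hsnw j
  have hd3 : 36 * d ^ 2 < c * θ ^ 2 := by
    rw [Real.lt_sqrt hd0.le] at hd2
    linarith
  have hwne := ball_ne hr hwb
  have hbv : Bornology.IsBounded (Poly (uv v) (Hv v)) := hpolyv ▸ poly_bdd v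
  have hnev : (Poly (uv v) (Hv v)).Nonempty := hpolyv ▸ hvb
  have hbw : Bornology.IsBounded (Poly (uv w) (Hv w)) := hpolyw ▸ poly_bdd w
  have hnew : (Poly (uv w) (Hv w)).Nonempty := hpolyw ▸ hwne
  obtain ⟨iVv, iWv, p0, p1, p2, CP, hpP, heP⟩ := expand hR hv hvb
  obtain ⟨iVw, iWw, q0, q1, q2, CQ, hpQ, heQ⟩ := expand hR hw hwne
  -- equality of the heat traces
  have hheat : ∀ s : ℝ, 0 < s → ∫ ω, Vol (uv v) (Hv v) (fun i => s * hs ω (uv v i)) ∂PP =
      ∫ ω, Vol (uv w) (Hv w) (fun i => s * hs ω (uv w i)) ∂PP := by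
    intro s hs
    have h1 := H62T.heat_all (n + 3) (uv v) (Hv v) (norm_uv hsnv) hbv hnev (s ^ 2) (by positivity)
    have h2 := H62T.heat_all (m + 3) (uv w) (Hv w) (norm_uv hsnw) hbw hnew (s ^ 2) (by positivity)
    rw [Real.sqrt_sq hs.le] at h1 h2
    rw [← h1, ← h2, ← hpolyv, ← hpolyw]
    simp only [hiso _]
  have hpoly : (p0 - q0) = 0 ∧ (p1 - q1) = 0 ∧ (p2 - q2) = 0 := by
    apply H62T.H9.poly_zero (C := CP + CQ)
    intro s hs0 hs1
    have h1 := heP s hs0 hs1
    have h2 := heQ s hs0 hs1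
    rw [hpP s] at h1
    rw [hpQ s] at h2
    rw [hheat s hs0] at h1
    set I : ℝ := ∫ ω, Vol (uv w) (Hv w) (fun i => s * hs ω (uv w i)) ∂PP with hI
    calc |p0 - q0 + (p1 - q1) * s + (p2 - q2) * s ^ 2|
        = |(I - (q0 + q1 * s + q2 * s ^ 2)) - (I - (p0 + p1 * s + p2 * s ^ 2))| := by
          congr 1; ring
      _ ≤ |I - (q0 + q1 * s + q2 * s ^ 2)| + |I - (p0 + p1 * s + p2 * s ^ 2)| := abs_sub _ _
      _ ≤ CQ * s ^ 3 + CP * s ^ 3 := add_le_add h2 h1
      _ = (CP + CQ) * s ^ 3 := by ring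
  obtain ⟨e0, e1, e2⟩ := hpoly
  have hWW : ∀ s : ℝ, ∫ ω, Wv v (fun i => s * hs ω (uv v i)) ∂PP =
      ∫ ω, Wv w (fun i => s * hs ω (uv w i)) ∂PP := by
    intro s
    rw [hpP, hpQ, sub_eq_zero.1 e0, sub_eq_zero.1 e1, sub_eq_zero.1 e2]
  -- upper bound
  obtain ⟨K1, hK1, hup⟩ := upper hc hbv hnev (quad_Wv v) iVv iWv hθ0 (by
    intro s hs0 hs1 ω hω hM
    apply hvolv
    intro i
    have h1 := ln_ge hsnv hcc hvc hω hs0.le i
    have h2 : 2 * (1 + 2 / cc) * (s * MM ω) ≤ r := by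
      calc 2 * (1 + 2 / cc) * (s * MM ω) ≤ 2 * (1 + 2 / cc) * θ := by gcongr
        _ = r := by rw [hθ]; field_simp
    have h3 := hvs i
    linarith)
  -- lower bound
  have hwlb := hL m w hm hw r hr hwb
  have hsw : ∀ s : ℝ, 0 < s → ∀ ω, Bd ω → s * MM ω ≤ r → ∀ i,
      s * hs ω (uv w i) ≤ r := by
    intro s hs0 ω hω hM i
    have := hs_le_MM hω (norm_uv hsnw i).le
    calc s * hs ω (uv w i) ≤ s * MM ω := mul_le_mul_of_nonneg_left this hs0.le
      _ ≤ r := hM
  obtain ⟨K2, hK2, hlow⟩ := lower hc hbw hnew (quad_Wv w) iVw iWw hr (by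
    intro s hs0 hs1 ω hω hM
    exact (hwlb (fun i => s * hs ω (uv w i)) (fun i => mul_nonneg hs0.le (hs_nn _ _))
      (hsw s hs0 ω hω hM)).1)
  obtain ⟨R, b, hR0, hb0, hEv⟩ := exists_b
  set k : ℝ := sn w j * sn w (j + 1) / (2 * det (ev w (j - 1)) (ev w (j + 1))) with hk
  have hk0 : 0 < k := by
    have h1 := hsnw j
    have h2 := hsnw (j + 1)
    positivity
  -- constants
  set Kw : ℝ := (2 + R) * (1 / sn w j + 1 / sn w (j + 1)) + 4 * (1 + R) with hKw
  have hσ1 := hsnw j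
  have hσ2 := hsnw (j + 1)
  have hKw0 : 0 < Kw := by positivity
  -- the main inequality
  have hmain : ∀ s : ℝ, 0 < s → s ≤ 1 → s * Kw ≤ d →
      k * d ^ 2 * (b * Real.exp (-(36 * d ^ 2 / s ^ 2))) ≤
        (K1 + K2) * Real.exp (-(c * θ ^ 2 / s ^ 2)) := by
    intro s hs0 hs1 hsK
    set z : ℂ := ((6 * d / s : ℝ) : ℂ) * ev w j with hz
    have hzn : ‖z‖ = 6 * d / s := by
      rw [hz, norm_mul, Complex.norm_real, norm_ev hsnw, mul_one,
        Real.norm_of_nonneg (by positivity)]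
    have hP := hEv z
    have hzz : ‖z‖ ^ 2 = 36 * d ^ 2 / s ^ 2 := by
      rw [hzn]; ring
    rw [hzz] at hP
    have hsR1 : s * (4 * (1 + R)) ≤ d := by
      refine le_trans ?_ hsK
      apply mul_le_mul_of_nonneg_left _ hs0.le
      have : 0 ≤ (2 + R) * (1 / sn w j + 1 / sn w (j + 1)) := by positivity
      linarith
    have hsR2 : s * ((2 + R) * (1 / sn w j + 1 / sn w (j + 1))) ≤ d := by
      refine le_trans ?_ hsK
      apply mul_le_mul_of_nonneg_left _ hs0.le
      have : 0 ≤ 4 * (1 + R) := by positivity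
      linarith
    have hsz : s * (6 * d / s) = 6 * d := by field_simp
    have hE1 : ∀ ω ∈ Ev R z, Bd ω → s * MM ω ≤ r := by
      intro ω hωE hω
      have hu : ∀ u : ℂ, ‖u‖ = 1 → s * hs ω u ≤ 6 * d + s * (1 + R) := by
        intro u hu
        have h1 := Ev_hs_le hωE hR0.le hu
        have h2 : max 0 (ip u z) ≤ 6 * d / s := by
          apply max_le (by positivity)
          have := H62T.H41.ip_le u z
          rw [hu, one_mul, hzn] at this
          exact this
        calc s * hs ω u ≤ s * (6 * d / s + 1 + R) :=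
              mul_le_mul_of_nonneg_left (by linarith) hs0.le
          _ = 6 * d + s * (1 + R) := by rw [add_assoc, mul_add, hsz]
      have a1 := hu 1 (by simp)
      have a2 := hu (-1) (by simp)
      have a3 := hu I (by simp)
      have a4 := hu (-I) (by simp)
      have e : s * MM ω = s * hs ω 1 + s * hs ω (-1) + s * hs ω I + s * hs ω (-I) := by
        unfold MM; ring
      rw [e]
      linarith
    have hlow' := hlow s hs0 hs1 (Ev R z) (k * d ^ 2) (Ev_meas R z) hE1 (by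
      intro ω hωE hω
      have hM := hE1 ω hωE hω
      have h1 := (hwlb (fun i => s * hs ω (uv w i)) (fun i => mul_nonneg hs0.le (hs_nn _ _))
        (hsw s hs0 ω hω hM)).2 j hD
      rw [← hk] at h1
      have h2 : ln w (fun i => s * hs ω (uv w i)) j ≤ -d := by
        -- estimates
        have hj0 : hs ω (uv w j) ≤ 1 + R := by
          have h3 := Ev_hs_le hωE hR0.le (norm_uv hsnw j)
          have h4 : ip (uv w j) z = 0 := by
            rw [hz]
            unfold uv ip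
            simp
            ring
          rw [h4, max_self, zero_add] at h3
          exact h3
        have hj1 : 3 * d / s * sn w (j + 1) - 1 ≤ hs ω (uv w (j + 1)) := by
          have h4 : ip (uv w (j + 1)) z = 6 * d / s * sn w (j + 1) := by
            rw [hz]
            unfold uv ip sn det
            rw [add_sub_cancel_right]
            simp
            ring
          have h3 := Ev_le_hs hωE hR0.le (norm_uv hsnw (j + 1)) (by
            rw [h4]
            positivity)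
          rw [h4] at h3
          calc 3 * d / s * sn w (j + 1) - 1 = 6 * d / s * sn w (j + 1) / 2 - 1 := by ring
            _ ≤ _ := h3
        have hjm := hs_nn ω (uv w (j - 1))
        have hj := hs_nn ω (uv w j)
        have c1 := (abs_le.1 (abs_cs hsnw j)).2
        have c2 := (abs_le.1 (abs_cs hsnw (j + 1))).2
        have t1 : -((1 + R) * (s * (1 / sn w j))) ≤
            (s * hs ω (uv w (j - 1)) - s * hs ω (uv w j) * cs w j) / sn w j := by
          rw [le_div_iff₀ hσ1]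
          have e : -((1 + R) * (s * (1 / sn w j))) * sn w j = -((1 + R) * s) := by field_simp
          rw [e]
          have g1 : 0 ≤ s * hs ω (uv w (j - 1)) := mul_nonneg hs0.le hjm
          have g2 : hs ω (uv w j) * cs w j ≤ 1 + R := by nlinarith
          nlinarith
        have t2 : 3 * d - (2 + R) * (s * (1 / sn w (j + 1))) ≤
            (s * hs ω (uv w (j + 1)) - s * hs ω (uv w j) * cs w (j + 1)) / sn w (j + 1) := by
          rw [le_div_iff₀ hσ2]
          have e : (3 * d - (2 + R) * (s * (1 / sn w (j + 1)))) * sn w (j + 1)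
              = 3 * d * sn w (j + 1) - (2 + R) * s := by field_simp
          rw [e]
          have g1 : s * (3 * d / s * sn w (j + 1) - 1) ≤ s * hs ω (uv w (j + 1)) :=
            mul_le_mul_of_nonneg_left hj1 hs0.le
          have g3 : s * (3 * d / s * sn w (j + 1) - 1) = 3 * d * sn w (j + 1) - s := by
            field_simp
          rw [g3] at g1
          have g2 : hs ω (uv w j) * cs w (j + 1) ≤ 1 + R := by nlinarith
          nlinarith
        have t3 : (1 + R) * (s * (1 / sn w j)) + (2 + R) * (s * (1 / sn w (j + 1))) ≤ d := by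
          refine le_trans ?_ hsR2
          have g : 0 ≤ s * (1 / sn w j) := by positivity
          nlinarith
        unfold ln
        simp only
        rw [← hd]
        linarith
      have h3 : d ^ 2 ≤ min (ln w (fun i => s * hs ω (uv w i)) j) 0 ^ 2 := by
        rw [min_eq_left (by linarith)]
        nlinarith
      have h4 := mul_le_mul_of_nonneg_left h3 hk0.le
      linarith)
    have hup' := (abs_le.1 (hup s hs0 hs1)).2
    rw [hheat s hs0, hWW s] at hup'
    have h5 : k * d ^ 2 * (b * Real.exp (-(36 * d ^ 2 / s ^ 2))) ≤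
        k * d ^ 2 * PP.real (Ev R z) := mul_le_mul_of_nonneg_left hP (by positivity)
    have h6 : Real.exp (-(c * (r / s) ^ 2)) ≤ Real.exp (-(c * (θ / s) ^ 2)) := by
      apply Real.exp_le_exp.2
      apply neg_le_neg
      have : θ ≤ r := by
        rw [hθ]
        apply div_le_self hr.le
        have : 0 < 2 / cc := by positivity
        linarith
      gcongr
    have h7 : K2 * Real.exp (-(c * (r / s) ^ 2)) ≤ K2 * Real.exp (-(c * (θ / s) ^ 2)) :=
      mul_le_mul_of_nonneg_left h6 hK2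
    have h8 : c * (θ / s) ^ 2 = c * θ ^ 2 / s ^ 2 := by ring
    rw [h8] at h7 hup'
    linarith
  -- contradiction
  set g : ℝ := c * θ ^ 2 - 36 * d ^ 2 with hg
  have hg0 : 0 < g := by rw [hg]; linarith
  set X : ℝ := (K1 + K2) / (k * d ^ 2 * b) with hX
  have hX0 : 0 ≤ X := by positivity
  have hX1 : 0 < X + 1 := by linarith
  -- choose s
  obtain ⟨s, hs0, hs1, hs2, hs3⟩ : ∃ s : ℝ, 0 < s ∧ s ≤ 1 ∧ s * Kw ≤ d ∧ s ^ 2 * (X + 1) ≤ g := by
    refine ⟨min 1 (min (d / Kw) (g / (X + 1))), by positivity, min_le_left _ _, ?_, ?_⟩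
    · have h1 : min 1 (min (d / Kw) (g / (X + 1))) ≤ d / Kw :=
        (min_le_right _ _).trans (min_le_left _ _)
      calc _ ≤ d / Kw * Kw := mul_le_mul_of_nonneg_right h1 hKw0.le
        _ = d := by field_simp
    · have h1 : min 1 (min (d / Kw) (g / (X + 1))) ≤ g / (X + 1) :=
        (min_le_right _ _).trans (min_le_right _ _)
      have h2 : min 1 (min (d / Kw) (g / (X + 1))) ≤ 1 := min_le_left _ _
      have h3 : 0 < min 1 (min (d / Kw) (g / (X + 1))) := by positivity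
      calc (min 1 (min (d / Kw) (g / (X + 1)))) ^ 2 * (X + 1)
          ≤ g / (X + 1) * (X + 1) := by
            apply mul_le_mul_of_nonneg_right _ hX1.le
            nlinarith
        _ = g := by field_simp
  have hfin := hmain s hs0 hs1 hs2
  have h1 : Real.exp (-(36 * d ^ 2 / s ^ 2)) =
      Real.exp (g / s ^ 2) * Real.exp (-(c * θ ^ 2 / s ^ 2)) := by
    rw [← Real.exp_add]
    congr 1
    rw [hg]
    ring
  rw [h1] at hfin
  have h2 : k * d ^ 2 * (b * Real.exp (g / s ^ 2)) ≤ K1 + K2 := by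
    have h3 : k * d ^ 2 * (b * Real.exp (g / s ^ 2)) * Real.exp (-(c * θ ^ 2 / s ^ 2)) ≤
        (K1 + K2) * Real.exp (-(c * θ ^ 2 / s ^ 2)) := by
      calc _ = k * d ^ 2 * (b * (Real.exp (g / s ^ 2) * Real.exp (-(c * θ ^ 2 / s ^ 2)))) := by
            ring
        _ ≤ _ := hfin
    exact le_of_mul_le_mul_right h3 (Real.exp_pos _)
  have h4 : X + 1 ≤ g / s ^ 2 := by
    rw [le_div_iff₀ (by positivity)]
    linarith
  have h5 := Real.add_one_le_exp (g / s ^ 2)
  have h6 : k * d ^ 2 * b * (X + 1) ≤ K1 + K2 := by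
    have hkb : 0 < k * d ^ 2 * b := by positivity
    calc k * d ^ 2 * b * (X + 1) ≤ k * d ^ 2 * b * Real.exp (g / s ^ 2) :=
          mul_le_mul_of_nonneg_left (by linarith) hkb.le
      _ = k * d ^ 2 * (b * Real.exp (g / s ^ 2)) := by ring
      _ ≤ _ := h2
  have h7 : k * d ^ 2 * b * (X + 1) = K1 + K2 + k * d ^ 2 * b := by
    rw [hX]
    field_simp
  have h8 : 0 < k * d ^ 2 * b := by positivity
  linarith

theorem rate (hR : RvwStatement) (hL : RlbStatement) (hG : RlongStatement) : RateStatement := by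
  intro r R hr hRR
  obtain ⟨c, hc0, hc⟩ := exp_err
  obtain ⟨cc, hcc, hcs⟩ := hG.2 r R hr hRR
  refine ⟨min (r / 25) (Real.sqrt (c * (r / (2 * (1 + 2 / cc))) ^ 2 / 36)), ?_, ?_⟩
  · apply lt_min (by positivity)
    apply Real.sqrt_pos.2
    positivity
  · intro n m v w hv hw hvs hvb hvd hwb hwd hiso j
    have hsnw := (hR m w hw).1
    by_cases hD : 0 < det (ev w (j - 1)) (ev w (j + 1))
    · have hm : 1 ≤ m := by
        rcases Nat.eq_zero_or_pos m with h0 | h0
        · exfalso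
          subst h0
          exact absurd hD (not_lt.2 (tri_det hsnw j))
        · exact h0
      exact key hR hL hc0 hc hv hw hr hcc hvs (ball_ne hr hvb) hwb (hcs n v hv hvb hvd) hiso hm
        j hD
    · have h1 := hG.1 m w hw r hr hwb j (not_lt.1 hD)
      refine (min_le_left _ _).trans ?_
      linarith

end Pool.Agent.H5O.H92
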